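import Mathlib

/-!
Sets of words of length `L` over `ZMod m` which are balanced at every word of length `L - 1`
(circulations of the de Bruijn graph), of every size, by lifting along the difference map.
-/

set_option autoImplicit false

namespace Pool.Agent.HA48.GDB

open Finset

variable {m : ℕ} [NeZero m]

/-- words of length `L` over `ZMod m` -/
abbrev W (m L : ℕ) := Fin L → ZMod m

/-- differences of consecutive letters -/
def D {L : ℕ} (w : W m (L + 1)) : W m L := fun i => w i.succ - w i.castSucc

omit [NeZero m] in
lemma D_inj {L : ℕ} (w w' : W m (L + 1)) (h0 : w 0 = w' 0) (h : D w = D w') : w = w' := by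
  funext i
  induction i using Fin.induction with
  | zero => exact h0
  | succ i ih =>
    have := congrFun h i
    simp only [D] at this
    rw [ih] at this
    exact sub_left_injective this

/-- a word is given by its first letter and its differences -/
noncomputable def gEquiv (L : ℕ) : W m (L + 1) ≃ ZMod m × W m L :=
  Equiv.ofBijective (fun w => (w 0, D w)) (by
    rw [Fintype.bijective_iff_injective_and_card]
    refine ⟨fun w w' h => ?_, ?_⟩
    · have := Prod.ext_iff.1 h
      exact D_inj w w' this.1 this.2
    · simp [pow_succ, mul_comm])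

/-- the words whose differences are in `E` -/
def lift {L : ℕ} (E : Finset (W m L)) : Finset (W m (L + 1)) :=
  univ.filter fun w => D w ∈ E

lemma card_lift_fiber {L : ℕ} (E : Finset (W m L)) (x : ZMod m) :
    ((lift E).filter fun w => w 0 = x).card = E.card := by
  symm
  refine Finset.card_bij (fun v _ => (gEquiv L).symm (x, v)) ?_ ?_ ?_
  · intro v hv
    have h : gEquiv L ((gEquiv L).symm (x, v)) = (x, v) := Equiv.apply_symm_apply _ _
    have h1 : ((gEquiv L).symm (x, v)) 0 = x := congrArg Prod.fst h
    have h2 : D ((gEquiv L).symm (x, v)) = v := congrArg Prod.snd h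
    rw [mem_filter, lift, mem_filter]
    exact ⟨⟨mem_univ _, by rw [h2]; exact hv⟩, h1⟩
  · intro v _ v' _ h
    have := (gEquiv L).symm.injective h
    exact (Prod.ext_iff.1 this).2
  · intro w hw
    rw [mem_filter, lift, mem_filter] at hw
    refine ⟨D w, hw.1.2, ?_⟩
    rw [Equiv.symm_apply_eq]
    exact Prod.ext hw.2.symm rfl

lemma card_lift {L : ℕ} (E : Finset (W m L)) : (lift E).card = m * E.card := by
  rw [Finset.card_eq_sum_card_fiberwise (f := fun w : W m (L + 1) => w 0) (t := univ)
    (fun _ _ => by simp)]
  rw [Finset.sum_congr rfl (fun x _ => card_lift_fiber E x)]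
  simp [ZMod.card]

/-- at every shorter word, as many words of `E` arrive as leave -/
def Circ : (L : ℕ) → Finset (W m L) → Prop
  | 0, _ => True
  | L + 1, E => ∀ u : W m L, (univ.filter fun x : ZMod m => (Fin.cons x u : W m (L + 1)) ∈ E).card =
      (univ.filter fun x : ZMod m => (Fin.snoc u x : W m (L + 1)) ∈ E).card

omit [NeZero m] in
lemma cons_eq_snoc (u : W m 0) (x : ZMod m) : (Fin.cons x u : W m 1) = Fin.snoc u x := by
  funext i
  fin_cases i
  simp [Fin.snoc]

omit [NeZero m] in
lemma D_cons {L : ℕ} (u : W m (L + 1)) (x : ZMod m) :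
    D (Fin.cons x u : W m (L + 1 + 1)) = Fin.cons (u 0 - x) (D u) := by
  funext i
  refine Fin.cases ?_ (fun j => ?_) i
  · simp [D]
  · simp [D]

omit [NeZero m] in
lemma D_snoc {L : ℕ} (u : W m (L + 1)) (x : ZMod m) :
    D (Fin.snoc u x : W m (L + 1 + 1)) = Fin.snoc (D u) (x - u (Fin.last L)) := by
  funext i
  refine Fin.lastCases ?_ (fun j => ?_) i
  · simp [D]
  · show (Fin.snoc u x : W m (L + 1 + 1)) j.castSucc.succ -
      (Fin.snoc u x : W m (L + 1 + 1)) j.castSucc.castSucc = _
    rw [Fin.succ_castSucc, Fin.snoc_castSucc, Fin.snoc_castSucc, Fin.snoc_castSucc]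
    rfl

lemma circ_lift {L : ℕ} (E : Finset (W m L)) (h : Circ L E) : Circ (L + 1) (lift E) := by
  intro u
  cases L with
  | zero =>
    simp only [cons_eq_snoc]
  | succ L =>
    have h1 : (univ.filter fun x : ZMod m => (Fin.cons x u : W m (L + 1 + 1)) ∈ lift E).card =
        (univ.filter fun x : ZMod m => (Fin.cons x (D u) : W m (L + 1)) ∈ E).card := by
      refine Finset.card_bij (fun x _ => u 0 - x) ?_ ?_ ?_
      · intro x hx
        simp only [lift, mem_filter, mem_univ, true_and, D_cons] at hx ⊢
        exact hx
      · intro x _ y _ hxy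
        exact sub_right_injective hxy
      · intro z hz
        simp only [mem_filter, mem_univ, true_and] at hz
        refine ⟨u 0 - z, ?_, sub_sub_cancel _ _⟩
        simp only [lift, mem_filter, mem_univ, true_and, D_cons, sub_sub_cancel]
        exact hz
    have h2 : (univ.filter fun x : ZMod m => (Fin.snoc u x : W m (L + 1 + 1)) ∈ lift E).card =
        (univ.filter fun x : ZMod m => (Fin.snoc (D u) x : W m (L + 1)) ∈ E).card := by
      refine Finset.card_bij (fun x _ => x - u (Fin.last L)) ?_ ?_ ?_
      · intro x hx
        simp only [lift, mem_filter, mem_univ, true_and, D_snoc] at hx ⊢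
        exact hx
      · intro x _ y _ hxy
        exact sub_left_injective hxy
      · intro z hz
        simp only [mem_filter, mem_univ, true_and] at hz
        refine ⟨z + u (Fin.last L), ?_, add_sub_cancel_right _ _⟩
        simp only [lift, mem_filter, mem_univ, true_and, D_snoc, add_sub_cancel_right]
        exact hz
    rw [h1, h2]
    exact h (D u)

/-- the constant words -/
def cst (L : ℕ) (T : Finset (ZMod m)) : Finset (W m L) := T.image fun c => fun _ => c

omit [NeZero m] in
lemma cst_rot {L : ℕ} (T : Finset (ZMod m)) (u : W m L) (x : ZMod m) :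
    (Fin.cons x u : W m (L + 1)) ∈ cst (L + 1) T ↔ (Fin.snoc u x : W m (L + 1)) ∈ cst (L + 1) T := by
  simp only [cst, mem_image]
  constructor
  · rintro ⟨c, hc, h⟩
    refine ⟨c, hc, ?_⟩
    have h0 := congrFun h 0
    simp only [Fin.cons_zero] at h0
    funext i
    refine Fin.lastCases ?_ (fun j => ?_) i
    · rw [Fin.snoc_last]; exact h0
    · rw [Fin.snoc_castSucc]
      have := congrFun h j.succ
      simpa using this
  · rintro ⟨c, hc, h⟩
    refine ⟨c, hc, ?_⟩
    have h0 := congrFun h (Fin.last L)
    simp only [Fin.snoc_last] at h0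
    funext i
    refine Fin.cases ?_ (fun j => ?_) i
    · rw [Fin.cons_zero]; exact h0
    · rw [Fin.cons_succ]
      have := congrFun h j.castSucc
      simpa using this

/-- Circulations of every size. -/
theorem exists_circ (L : ℕ) : ∀ N : ℕ, N < m ^ L →
    ∃ E : Finset (W m L), Circ L E ∧ E.card = N ∧ (0 : W m L) ∉ E := by
  induction L with
  | zero =>
    intro N hN
    refine ⟨∅, trivial, ?_, by simp⟩
    simp at hN ⊢
    omega
  | succ L ih =>
    intro N hN
    have hm : 0 < m := Nat.pos_of_ne_zero (NeZero.ne m)
    have h1 : N / m < m ^ L := by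
      rw [Nat.div_lt_iff_lt_mul hm]
      rwa [pow_succ] at hN
    obtain ⟨E, hE, hc, h0⟩ := ih (N / m) h1
    have h2 : N % m ≤ ((univ : Finset (ZMod m)).erase 0).card := by
      rw [card_erase_of_mem (mem_univ _), card_univ, ZMod.card]
      have := Nat.mod_lt N hm
      omega
    obtain ⟨T, hT, hTc⟩ := exists_subset_card_eq h2
    have hDc : ∀ c : ZMod m, D (fun _ => c : W m (L + 1)) = 0 := by
      intro c
      funext i
      simp [D]
    have hdis : Disjoint (lift E) (cst (L + 1) T) := by
      rw [Finset.disjoint_left]
      intro w hw hw'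
      simp only [cst, mem_image] at hw'
      obtain ⟨c, _, rfl⟩ := hw'
      rw [lift, mem_filter, hDc] at hw
      exact h0 hw.2
    refine ⟨lift E ∪ cst (L + 1) T, ?_, ?_, ?_⟩
    · intro u
      have e1 : ∀ x : ZMod m, ((Fin.cons x u : W m (L + 1)) ∈ lift E ∪ cst (L + 1) T ↔
          (Fin.cons x u : W m (L + 1)) ∈ lift E ∨ (Fin.cons x u : W m (L + 1)) ∈ cst (L + 1) T) :=
        fun x => mem_union
      have e2 : ∀ x : ZMod m, ((Fin.snoc u x : W m (L + 1)) ∈ lift E ∪ cst (L + 1) T ↔
          (Fin.snoc u x : W m (L + 1)) ∈ lift E ∨ (Fin.snoc u x : W m (L + 1)) ∈ cst (L + 1) T) :=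
        fun x => mem_union
      simp only [e1, e2]
      rw [filter_or, filter_or, card_union_of_disjoint, card_union_of_disjoint]
      · have := circ_lift E hE u
        rw [this]
        congr 2
        ext x
        simp only [mem_filter, mem_univ, true_and]
        exact cst_rot T u x
      · rw [Finset.disjoint_left]
        intro x hx hx'
        rw [mem_filter] at hx hx'
        exact Finset.disjoint_left.1 hdis hx.2 hx'.2
      · rw [Finset.disjoint_left]
        intro x hx hx'
        rw [mem_filter] at hx hx'
        exact Finset.disjoint_left.1 hdis hx.2 hx'.2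
    · rw [card_union_of_disjoint hdis, card_lift, hc, cst, card_image_of_injective, hTc]
      · exact Nat.div_add_mod N m
      · intro c c' h
        exact congrFun h 0
    · rw [mem_union, not_or]
      constructor
      · rw [lift, mem_filter]
        have : D (0 : W m (L + 1)) = 0 := hDc 0
        rw [this]
        exact fun h => h0 h.2
      · simp only [cst, mem_image, not_exists, not_and]
        intro c hc h
        have h3 : c = 0 := congrFun h 0
        have := hT hc
        rw [mem_erase] at this
        exact this.1 h3

/-- Balanced circulations of every size divisible by `m`. -/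
theorem exists_bal (P N : ℕ) (hN : N < m ^ P) :
    ∃ E : Finset (W m (P + 1)), Circ (P + 1) E ∧ E.card = m * N ∧
      ∀ x, (E.filter fun w => w 0 = x).card = N := by
  obtain ⟨E, hE, hc, _⟩ := exists_circ P N hN
  exact ⟨lift E, circ_lift E hE, by rw [card_lift, hc], fun x => by rw [card_lift_fiber, hc]⟩

end Pool.Agent.HA48.GDB
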