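import Pool.Agent.HA48.GDB.Join

/-!
The cyclic sequence which belongs to a single closed walk.
-/

set_option autoImplicit false

namespace Pool.Agent.HA48.GDB

open Finset

variable {m : ℕ} [NeZero m] {P q : ℕ} {E : Finset (W m (P + 1))}

lemma countY (r : W m (P + 1) → Prop) [DecidablePred r] :
    (univ.filter fun y : Y P q E => r y.1.1).card =
      (E.filter r).card + q * (univ.filter r).card := by
  rw [Finset.card_eq_sum_card_fiberwise (f := fun y : Y P q E => y.1.2) (t := univ)
    (fun _ _ => by simp)]
  rw [Fin.sum_univ_succ]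
  have h0 : ((univ.filter fun y : Y P q E => r y.1.1).filter fun y => y.1.2 = 0).card =
      (E.filter r).card := by
    refine Finset.card_bij (fun y _ => y.1.1) ?_ ?_ ?_
    · intro y hy
      simp only [mem_filter, mem_univ, true_and] at hy ⊢
      refine ⟨?_, hy.1⟩
      rcases y.2 with h | h
      · exact absurd hy.2 h
      · exact h
    · intro y hy y' hy' h
      simp only [mem_filter, mem_univ, true_and] at hy hy'
      exact Subtype.ext (Prod.ext h (hy.2.trans hy'.2.symm))
    · intro v hv
      rw [mem_filter] at hv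
      exact ⟨⟨(v, 0), Or.inr hv.1⟩, by simp [hv.2], rfl⟩
  have h1 : ∀ i : Fin q, ((univ.filter fun y : Y P q E => r y.1.1).filter
      fun y => y.1.2 = i.succ).card = (univ.filter r).card := by
    intro i
    refine Finset.card_bij (fun y _ => y.1.1) ?_ ?_ ?_
    · intro y hy
      simp only [mem_filter, mem_univ, true_and] at hy ⊢
      exact hy.1
    · intro y hy y' hy' h
      simp only [mem_filter, mem_univ, true_and] at hy hy'
      exact Subtype.ext (Prod.ext h (hy.2.trans hy'.2.symm))
    · intro v hv
      rw [mem_filter] at hv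
      exact ⟨⟨(v, i.succ), Or.inl (Fin.succ_ne_zero i)⟩, by simp [hv.2], rfl⟩
  rw [h0, Finset.sum_congr rfl (fun i _ => h1 i)]
  simp

lemma card_first (x : ZMod m) : (univ.filter fun v : W m (P + 1) => v 0 = x).card = m ^ P := by
  have h := card_lift_fiber (univ : Finset (W m P)) x
  have h1 : lift (univ : Finset (W m P)) = univ := by
    ext w
    simp [lift]
  rw [h1] at h
  rw [h, card_univ]
  simp [ZMod.card]

/-- The sequences used for the theorem. -/
theorem core (m : ℕ) [NeZero m] (P q N n : ℕ) [NeZero n] (hq : 1 ≤ q) (hN : N < m ^ P)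
    (hn : n = q * m ^ (P + 1) + m * N) :
    ∃ (E : Finset (W m (P + 1))) (a : ZMod n → ZMod m), E.card = m * N ∧
      (∀ x, (univ.filter fun i => a i = x).card = q * m ^ P + N) ∧
      (∀ w : W m (P + 1), (univ.filter fun i : ZMod n => ∀ j : Fin (P + 1),
        a (i + ((j : ℕ) : ZMod n)) = w j).card = q + if w ∈ E then 1 else 0) ∧
      (q < m → ∀ i i' : ZMod n, (∀ j : ℕ, j ≤ P + 1 → a (i + j) = a (i' + j)) → i = i') := by
  obtain ⟨E, hE, hEc, hEb⟩ := exists_bal (m := m) P N hN
  obtain ⟨σ, hσ, hcyc⟩ := exists_cycle (q < m) hq (exists_good P q E hE)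
  have hcard : Fintype.card (Y P q E) = n := by
    have h := countY (P := P) (q := q) (E := E) (fun _ => True)
    simp only [filter_true, card_univ] at h
    rw [h, hEc, hn]
    simp [ZMod.card]
    ring
  have hpos : 0 < Fintype.card (Y P q E) := by
    rw [hcard]; exact Nat.pos_of_ne_zero (NeZero.ne n)
  obtain ⟨y₀⟩ : Nonempty (Y P q E) := Fintype.card_pos_iff.1 hpos
  have hon : σ.IsCycleOn ((univ : Finset (Y P q E)) : Set (Y P q E)) := by
    refine ⟨?_, fun x _ y _ => hcyc x y⟩
    rw [Finset.coe_univ]
    exact Set.bijOn_univ.2 σ.bijective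
  have hpow : ∀ s t : ℕ, (σ ^ s) y₀ = (σ ^ t) y₀ ↔ s ≡ t [MOD n] := by
    intro s t
    have := hon.pow_apply_eq_pow_apply (mem_univ y₀) (m := s) (n := t)
    rwa [card_univ, hcard] at this
  let C : ZMod n → Y P q E := fun i => (σ ^ i.val) y₀
  have hC1 : ∀ i, C (i + 1) = σ (C i) := by
    intro i
    have h1 : (σ ^ (i + 1).val) y₀ = (σ ^ (i.val + 1)) y₀ := by
      rw [hpow]
      have h2 : (((i + 1).val : ℕ) : ZMod n) = ((i.val + 1 : ℕ) : ZMod n) := by
        push_cast
        rw [ZMod.natCast_zmod_val, ZMod.natCast_zmod_val]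
      exact (ZMod.natCast_eq_natCast_iff _ _ _).1 h2
    show (σ ^ (i + 1).val) y₀ = σ ((σ ^ i.val) y₀)
    rw [h1, pow_succ', Equiv.Perm.mul_apply]
  have hCb : Function.Bijective C := by
    rw [Fintype.bijective_iff_injective_and_card, hcard, ZMod.card]
    refine ⟨fun i j h => ?_, rfl⟩
    have h1 := (hpow _ _).1 h
    have h2 := (ZMod.natCast_eq_natCast_iff _ _ _).2 h1
    rwa [ZMod.natCast_zmod_val, ZMod.natCast_zmod_val] at h2
  let a : ZMod n → ZMod m := fun i => (C i).1.1 0
  have hshift : ∀ (i : ZMod n) (t : Fin P), (C (i + 1)).1.1 t.castSucc = (C i).1.1 t.succ := by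
    intro i t
    rw [hC1]
    exact congrFun (hσ.1 (C i)) t
  have hletters : ∀ (j : ℕ) (hj : j < P + 1) (i : ZMod n), (C i).1.1 ⟨j, hj⟩ = a (i + j) := by
    intro j
    induction j with
    | zero =>
      intro hj i
      simp only [a, Nat.cast_zero, add_zero]
      rfl
    | succ j ih =>
      intro hj i
      have h1 := hshift i ⟨j, by omega⟩
      have h2 := ih (by omega) (i + 1)
      have h3 : (C i).1.1 ⟨j + 1, hj⟩ = (C (i + 1)).1.1 ⟨j, by omega⟩ := h1.symm
      rw [h3, h2]
      congr 1
      push_cast
      ring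
  have hword : ∀ (i : ZMod n) (w : W m (P + 1)),
      (∀ j : Fin (P + 1), a (i + ((j : ℕ) : ZMod n)) = w j) ↔ (C i).1.1 = w := by
    intro i w
    constructor
    · intro h
      funext j
      rw [← h j, ← hletters j.val j.2 i]
    · rintro rfl j
      rw [← hletters j.val j.2 i]
  have htrans : ∀ (r : W m (P + 1) → Prop) [DecidablePred r],
      (univ.filter fun i : ZMod n => r (C i).1.1).card =
        (univ.filter fun y : Y P q E => r y.1.1).card := by
    intro r _
    refine Finset.card_bij (fun i _ => C i) ?_ ?_ ?_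
    · intro i hi
      simpa using hi
    · intro i _ j _ h
      exact hCb.1 h
    · intro y hy
      obtain ⟨i, rfl⟩ := hCb.2 y
      exact ⟨i, by simpa using hy, rfl⟩
  refine ⟨E, a, hEc, fun x => ?_, fun w => ?_, fun hqm i i' h => ?_⟩
  · have h1 : (univ.filter fun i : ZMod n => (C i).1.1 0 = x).card =
        (E.filter fun v => v 0 = x).card +
          q * (univ.filter fun v : W m (P + 1) => v 0 = x).card :=
      (htrans (fun v => v 0 = x)).trans (countY (fun v => v 0 = x))
    rw [hEb, card_first] at h1
    rw [show (univ.filter fun i => a i = x) = (univ.filter fun i : ZMod n => (C i).1.1 0 = x)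
      from rfl, h1]
    ring
  · have h1 : (univ.filter fun i : ZMod n => (C i).1.1 = w).card =
        (E.filter fun v => v = w).card +
          q * (univ.filter fun v : W m (P + 1) => v = w).card :=
      (htrans (fun v => v = w)).trans (countY (fun v => v = w))
    simp only [hword]
    rw [h1]
    have h2 : (univ.filter fun v : W m (P + 1) => v = w).card = 1 := by
      rw [Finset.filter_eq' univ w, if_pos (mem_univ w), card_singleton]
    have h3 : (E.filter fun v => v = w).card = if w ∈ E then 1 else 0 := by
      rw [Finset.filter_eq' E w]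
      split_ifs <;> simp
    rw [h2, h3]
    ring
  · have e1 : (C i).1.1 = (C i').1.1 := by
      funext j
      have h1 := hletters j.val j.2 i
      have h2 := hletters j.val j.2 i'
      rw [show (C i).1.1 j = _ from h1, show (C i').1.1 j = _ from h2]
      exact h j.val (by have := j.2; omega)
    have e2 : (C (i + 1)).1.1 = (C (i' + 1)).1.1 := by
      funext j
      have h1 := hletters j.val j.2 (i + 1)
      have h2 := hletters j.val j.2 (i' + 1)
      rw [show (C (i + 1)).1.1 j = _ from h1, show (C (i' + 1)).1.1 j = _ from h2]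
      have h3 := h (j.val + 1) (by have := j.2; omega)
      push_cast at h3
      rw [show i + 1 + (j.val : ZMod n) = i + (j.val + 1) by ring,
        show i' + 1 + (j.val : ZMod n) = i' + (j.val + 1) by ring]
      exact h3
    rw [hC1, hC1] at e2
    exact hCb.1 (hσ.2 hqm _ _ e1 e2)

end Pool.Agent.HA48.GDB
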