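import Pool.Agent.HA48.GDB.Circ

/-!
Joining the cycles: a single closed walk with prescribed multiplicities of the words.
-/

set_option autoImplicit false

namespace Pool.Agent.HA48.GDB

open Finset

section merge

variable {X : Type*}

lemma reach (σ σ' : Equiv.Perm X) (y : X) : ∀ (i : ℕ) (z : X), (σ ^ i) z = y →
    (∀ w, σ.SameCycle z w → w ≠ y → σ' w = σ w) → σ'.SameCycle z y := by
  intro i
  induction i with
  | zero =>
    intro z hz _
    rw [pow_zero, Equiv.Perm.one_apply] at hz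
    rw [hz]
  | succ i ih =>
    intro z hz h
    by_cases hzy : z = y
    · rw [hzy]
    · have h1 : σ' z = σ z := h z (Equiv.Perm.SameCycle.refl _ _) hzy
      have h2 : σ'.SameCycle (σ z) y := by
        refine ih (σ z) ?_ fun w hw hwy => h w ?_ hwy
        · rw [← hz, pow_succ, Equiv.Perm.mul_apply]
        · exact (Equiv.Perm.sameCycle_apply_left.1 hw)
      have h3 : σ'.SameCycle (σ' z) y := by rw [h1]; exact h2
      exact Equiv.Perm.sameCycle_apply_left.1 h3

variable [Finite X] [DecidableEq X]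

lemma merge1 (σ : Equiv.Perm X) (y y' : X) (h : ¬ σ.SameCycle y y') (z : X)
    (hz : σ.SameCycle y z) : (σ * Equiv.swap y y').SameCycle y z := by
  obtain ⟨i, hi⟩ := hz.symm.exists_nat_pow_eq
  refine (reach σ _ y i z hi fun w hw hwy => ?_).symm
  rw [Equiv.Perm.mul_apply, Equiv.swap_apply_of_ne_of_ne hwy]
  rintro rfl
  exact h (hz.trans hw)

lemma merge2 (σ : Equiv.Perm X) (y y' : X) (h : ¬ σ.SameCycle y y') :
    (σ * Equiv.swap y y').SameCycle y y' := by
  have h1 : (σ * Equiv.swap y' y).SameCycle y' (σ y') :=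
    merge1 σ y' y (fun h' => h h'.symm) (σ y') (Equiv.Perm.sameCycle_apply_right.2 (Equiv.Perm.SameCycle.refl _ _))
  rw [Equiv.swap_comm] at h1
  have h2 : (σ * Equiv.swap y y') y = σ y' := by
    rw [Equiv.Perm.mul_apply, Equiv.swap_apply_left]
  have h3 : (σ * Equiv.swap y y').SameCycle y (σ y') := by
    rw [← h2]
    exact Equiv.Perm.sameCycle_apply_right.2 (Equiv.Perm.SameCycle.refl _ _)
  exact h3.trans h1.symm

/-- Joining two cycles makes the cycle of `y₀` longer. -/
lemma bigger (σ : Equiv.Perm X) (y₀ y y' : X) (hy : σ.SameCycle y₀ y) (hy' : ¬ σ.SameCycle y₀ y') :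
    {z | σ.SameCycle y₀ z}.ncard < {z | (σ * Equiv.swap y y').SameCycle y₀ z}.ncard := by
  have h : ¬ σ.SameCycle y y' := fun h' => hy' (hy.trans h')
  have h0 : (σ * Equiv.swap y y').SameCycle y₀ y := (merge1 σ y y' h y₀ hy.symm).symm
  refine Set.ncard_lt_ncard ?_ (Set.toFinite _)
  refine ⟨fun z hz => ?_, fun hsub => ?_⟩
  · exact h0.trans (merge1 σ y y' h z (hy.symm.trans hz))
  · exact hy' (hsub (h0.trans (merge2 σ y y' h)))

end merge

variable {m : ℕ} [NeZero m]

/-- a permutation of the words which shifts every word and preserves `E` -/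
theorem exists_pi (P : ℕ) (E : Finset (W m (P + 1))) (hE : Circ (P + 1) E) :
    ∃ π : Equiv.Perm (W m (P + 1)), (∀ v, Fin.init (π v) = Fin.tail v) ∧ ∀ v, π v ∈ E ↔ v ∈ E := by
  classical
  have h1 : ∀ u : W m P, ∃ e : Equiv.Perm (ZMod m),
      ∀ x, (Fin.snoc u (e x) : W m (P + 1)) ∈ E ↔ (Fin.cons x u : W m (P + 1)) ∈ E := by
    intro u
    have hc := hE u
    have e : {x : ZMod m // (Fin.cons x u : W m (P + 1)) ∈ E} ≃
        {x : ZMod m // (Fin.snoc u x : W m (P + 1)) ∈ E} := by
      apply Fintype.equivOfCardEq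
      rw [Fintype.card_subtype, Fintype.card_subtype]
      exact hc
    refine ⟨e.extendSubtype, fun x => ?_⟩
    by_cases hx : (Fin.cons x u : W m (P + 1)) ∈ E
    · exact iff_of_true (e.extendSubtype_mem x hx) hx
    · exact iff_of_false (e.extendSubtype_not_mem x hx) hx
  choose e he using h1
  let f : W m (P + 1) → W m (P + 1) := fun v => Fin.snoc (Fin.tail v) (e (Fin.tail v) (v 0))
  have hf : Function.Injective f := by
    intro v v' h
    have h2 : Fin.tail v = Fin.tail v' := by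
      have := congrArg (Fin.init (α := fun _ => ZMod m)) h
      simpa [f] using this
    have h3 : e (Fin.tail v) (v 0) = e (Fin.tail v') (v' 0) := by
      have := congrFun h (Fin.last P)
      simpa [f] using this
    rw [h2] at h3
    have h4 := (e (Fin.tail v')).injective h3
    rw [← Fin.cons_self_tail v, ← Fin.cons_self_tail v', h2, h4]
  refine ⟨Equiv.ofBijective f (Finite.injective_iff_bijective.1 hf), fun v => ?_, fun v => ?_⟩
  · simp [f]
  · show (Fin.snoc (Fin.tail v) (e (Fin.tail v) (v 0)) : W m (P + 1)) ∈ E ↔ v ∈ E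
    rw [he, Fin.cons_self_tail]

/-- copies of the words: `q` for every word and one more for the words of `E` -/
abbrev Y (P q : ℕ) (E : Finset (W m (P + 1))) :=
  {y : W m (P + 1) × Fin (q + 1) // y.2 ≠ 0 ∨ y.1 ∈ E}

/-- the permutations which shift the words; if `b` holds then no two copies of a word have the
same successor -/
def Good {P q : ℕ} {E : Finset (W m (P + 1))} (b : Prop) (σ : Equiv.Perm (Y P q E)) : Prop :=
  (∀ y, Fin.init (σ y).1.1 = Fin.tail y.1.1) ∧
    (b → ∀ y y', y.1.1 = y'.1.1 → (σ y).1.1 = (σ y').1.1 → y = y')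

theorem exists_good (P q : ℕ) (E : Finset (W m (P + 1))) (hE : Circ (P + 1) E) :
    ∃ σ : Equiv.Perm (Y P q E), Good (q < m) σ := by
  obtain ⟨π, hπ1, hπ2⟩ := exists_pi P E hE
  let f : Y P q E → Y P q E := fun y =>
    ⟨(Fin.snoc (Fin.init (π y.1.1)) (π y.1.1 (Fin.last P) + ((y.1.2 : ℕ) : ZMod m)), y.1.2), by
      rcases y.2 with h | h
      · exact Or.inl h
      · by_cases h0 : y.1.2 = 0
        · right
          have h1 : (Fin.snoc (Fin.init (π y.1.1)) (π y.1.1 (Fin.last P) + ((y.1.2 : ℕ) : ZMod m)) :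
              W m (P + 1)) = π y.1.1 := by
            rw [h0]
            simp
          show (Fin.snoc (Fin.init (π y.1.1)) (π y.1.1 (Fin.last P) + ((y.1.2 : ℕ) : ZMod m)) :
              W m (P + 1)) ∈ E
          rw [h1, hπ2]
          exact h
        · exact Or.inl h0⟩
  have hinit : ∀ y, Fin.init (f y).1.1 = Fin.tail y.1.1 := by
    intro y
    rw [← hπ1]
    simp [f]
  have hlast : ∀ y, (f y).1.1 (Fin.last P) = π y.1.1 (Fin.last P) + ((y.1.2 : ℕ) : ZMod m) := by
    intro y
    simp [f]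
  have hf : Function.Injective f := by
    intro y y' h
    have h2 : y.1.2 = y'.1.2 :=
      (show (f y).1.2 = (f y').1.2 from congrArg (fun z : Y P q E => z.1.2) h)
    have h3 : (f y).1.1 = (f y').1.1 := congrArg (fun z : Y P q E => z.1.1) h
    have h4 : π y.1.1 (Fin.last P) = π y'.1.1 (Fin.last P) := by
      have := hlast y
      rw [h3, hlast y', h2] at this
      exact (add_right_cancel this).symm
    have h5 : Fin.init (π y.1.1) = Fin.init (π y'.1.1) := by
      rw [hπ1, hπ1, ← hinit, ← hinit, h3]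
    have h6 : π y.1.1 = π y'.1.1 := by
      rw [← Fin.snoc_init_self (π y.1.1), ← Fin.snoc_init_self (π y'.1.1), h5, h4]
    have h7 := π.injective h6
    exact Subtype.ext (Prod.ext h7 h2)
  refine ⟨Equiv.ofBijective f (Finite.injective_iff_bijective.1 hf), hinit, fun hq y y' h h' => ?_⟩
  have h1 : (f y).1.1 (Fin.last P) = (f y').1.1 (Fin.last P) := congrFun h' _
  rw [hlast, hlast, h] at h1
  have h2 := add_left_cancel h1
  have h3 : (y.1.2 : ℕ) = y'.1.2 := by
    rw [ZMod.natCast_eq_natCast_iff'] at h2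
    have e1 := y.1.2.2
    have e2 := y'.1.2.2
    rwa [Nat.mod_eq_of_lt (by omega), Nat.mod_eq_of_lt (by omega)] at h2
  exact Subtype.ext (Prod.ext h (Fin.ext h3))

variable {P q : ℕ} {E : Finset (W m (P + 1))}

omit [NeZero m] in
/-- swapping the successors of two copies with the same end -/
lemma good_swap_init (σ : Equiv.Perm (Y P q E)) (hσ : ∀ y, Fin.init (σ y).1.1 = Fin.tail y.1.1)
    (y y' : Y P q E) (h : Fin.tail y.1.1 = Fin.tail y'.1.1) (z : Y P q E) :
    Fin.init ((σ * Equiv.swap y y') z).1.1 = Fin.tail z.1.1 := by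
  rw [Equiv.Perm.mul_apply, hσ]
  by_cases h1 : z = y
  · rw [h1, Equiv.swap_apply_left, h]
  · by_cases h2 : z = y'
    · rw [h2, Equiv.swap_apply_right, h]
    · rw [Equiv.swap_apply_of_ne_of_ne h1 h2]

lemma good_swap_same {b : Prop} (σ : Equiv.Perm (Y P q E)) (hσ : Good b σ)
    (y y' : Y P q E) (h : y.1.1 = y'.1.1) : Good b (σ * Equiv.swap y y') := by
  refine ⟨good_swap_init σ hσ.1 y y' (by rw [h]), fun hb z z' hz hz' => ?_⟩
  have hs : ∀ z : Y P q E, (Equiv.swap y y' z).1.1 = z.1.1 := by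
    intro z
    by_cases h1 : z = y
    · rw [h1, Equiv.swap_apply_left, h]
    · by_cases h2 : z = y'
      · rw [h2, Equiv.swap_apply_right, h]
      · rw [Equiv.swap_apply_of_ne_of_ne h1 h2]
  have := hσ.2 hb (Equiv.swap y y' z) (Equiv.swap y y' z') (by rw [hs, hs, hz]) hz'
  exact (Equiv.swap y y').injective this

lemma good_swap_diff {b : Prop} (σ : Equiv.Perm (Y P q E)) (hσ : Good b σ) (O : Set (Y P q E))
    (hO : ∀ z, σ z ∈ O ↔ z ∈ O) (hO' : ∀ z z', z.1.1 = z'.1.1 → (z ∈ O ↔ z' ∈ O))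
    (y y' : Y P q E) (hy : y ∈ O) (hy' : y' ∉ O) (h : Fin.tail y.1.1 = Fin.tail y'.1.1) :
    Good b (σ * Equiv.swap y y') := by
  refine ⟨good_swap_init σ hσ.1 y y' h, fun hb z z' hz hz' => ?_⟩
  have hne : y ≠ y' := fun e => hy' (e ▸ hy)
  -- the images
  have i1 : (σ * Equiv.swap y y') y = σ y' := by
    rw [Equiv.Perm.mul_apply, Equiv.swap_apply_left]
  have i2 : (σ * Equiv.swap y y') y' = σ y := by
    rw [Equiv.Perm.mul_apply, Equiv.swap_apply_right]
  have i3 : ∀ w, w ≠ y → w ≠ y' → (σ * Equiv.swap y y') w = σ w := by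
    intro w h1 h2
    rw [Equiv.Perm.mul_apply, Equiv.swap_apply_of_ne_of_ne h1 h2]
  have m1 : (σ * Equiv.swap y y') y ∉ O := by rw [i1, hO]; exact hy'
  have m2 : (σ * Equiv.swap y y') y' ∈ O := by rw [i2, hO]; exact hy
  have m3 : ∀ w, w ≠ y → w ≠ y' → ((σ * Equiv.swap y y') w ∈ O ↔ w ∈ O) := by
    intro w h1 h2
    rw [i3 w h1 h2, hO]
  have k1 : z ∈ O ↔ z' ∈ O := hO' z z' hz
  have k2 := hO' _ _ hz'
  by_cases a1 : z = y
  · by_cases a2 : z' = y
    · rw [a1, a2]
    · exfalso
      have hz'O : z' ∈ O := k1.1 (a1 ▸ hy)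
      have a3 : z' ≠ y' := fun e => hy' (e ▸ hz'O)
      rw [a1] at k2
      exact m1 (k2.2 ((m3 z' a2 a3).2 hz'O))
  · by_cases a2 : z = y'
    · by_cases a3 : z' = y'
      · rw [a2, a3]
      · exfalso
        have hz'O : z' ∉ O := fun e => hy' (a2 ▸ k1.2 e)
        have a4 : z' ≠ y := fun e => hz'O (e ▸ hy)
        rw [a2] at k2
        exact hz'O ((m3 z' a4 a3).1 (k2.1 m2))
    · by_cases a3 : z' = y
      · exfalso
        have hzO : z ∈ O := k1.2 (a3 ▸ hy)
        rw [a3] at k2
        exact m1 (k2.1 ((m3 z a1 a2).2 hzO))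
      · by_cases a4 : z' = y'
        · exfalso
          have hzO : z ∉ O := fun e => hy' (a4 ▸ k1.1 e)
          rw [a4] at k2
          exact hzO ((m3 z a1 a2).1 (k2.2 m2))
        · rw [i3 z a1 a2, i3 z' a3 a4] at hz'
          exact hσ.2 hb z z' hz hz'

/-- There is a single closed walk. -/
theorem exists_cycle (b : Prop) (hq : 1 ≤ q) (h : ∃ σ : Equiv.Perm (Y P q E), Good b σ) :
    ∃ σ : Equiv.Perm (Y P q E), Good b σ ∧ ∀ y y', σ.SameCycle y y' := by
  classical
  obtain ⟨σ₀, hσ₀⟩ := h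
  let y₀ : Y P q E := ⟨(0, Fin.last q), Or.inl (by
    intro h0
    have := congrArg Fin.val h0
    simp at this
    omega)⟩
  have : Nonempty {σ : Equiv.Perm (Y P q E) // Good b σ} := ⟨⟨σ₀, hσ₀⟩⟩
  obtain ⟨⟨σ, hσ⟩, hmax⟩ := Finite.exists_max
    (fun σ : {σ : Equiv.Perm (Y P q E) // Good b σ} => {z | σ.1.SameCycle y₀ z}.ncard)
  have hno : ∀ y y', σ.SameCycle y₀ y → ¬ σ.SameCycle y₀ y' → ¬ Good b (σ * Equiv.swap y y') := by
    intro y y' hy hy' hg
    have h1 := hmax ⟨_, hg⟩
    have h2 := bigger σ y₀ y y' hy hy'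
    simp only at h1
    omega
  set O : Set (Y P q E) := {z | σ.SameCycle y₀ z} with hOdef
  have hO : ∀ z, σ z ∈ O ↔ z ∈ O := fun z => Equiv.Perm.sameCycle_apply_right
  have hO' : ∀ z z' : Y P q E, z.1.1 = z'.1.1 → (z ∈ O ↔ z' ∈ O) := by
    intro z z' hz
    by_contra hcon
    rcases not_iff.1 hcon with hcon'
    by_cases h1 : z ∈ O
    · have h2 : z' ∉ O := fun h2 => (hcon'.2 h2) h1
      exact hno z z' h1 h2 (good_swap_same σ hσ z z' hz)
    · have h2 : z' ∈ O := hcon'.1 h1
      exact hno z' z h2 h1 (good_swap_same σ hσ z' z hz.symm)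
  have hT : ∀ y y' : Y P q E, y ∈ O → Fin.tail y.1.1 = Fin.tail y'.1.1 → y' ∈ O := by
    intro y y' hy ht
    by_contra hy'
    exact hno y y' hy hy' (good_swap_diff σ hσ O hO hO' y y' hy hy' ht)
  have hN : ∀ y y' : Y P q E, y ∈ O → Fin.init y'.1.1 = Fin.tail y.1.1 → y' ∈ O := by
    intro y y' hy ht
    have h1 : σ (σ.symm y') = y' := Equiv.apply_symm_apply _ _
    rw [← h1, hO]
    refine hT y _ hy ?_
    rw [← ht, ← hσ.1, h1]
  have hfib : ∀ v : W m (P + 1), ∃ y : Y P q E, y.1.1 = v := by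
    intro v
    exact ⟨⟨(v, Fin.last q), Or.inl (by
      intro h0
      have := congrArg Fin.val h0
      simp at this
      omega)⟩, rfl⟩
  have hall : ∀ y : Y P q E, y ∈ O := by
    intro y
    let win : ℕ → W m (P + 1) := fun j i =>
      if i.val + j < P + 1 then 0 else y.1.1 (Fin.ofNat (P + 1) (i.val + j - (P + 1)))
    have hwin : ∀ j, j ≤ P + 1 → ∀ z : Y P q E, z.1.1 = win j → z ∈ O := by
      intro j
      induction j with
      | zero =>
        intro _ z hz
        have h1 : z.1.1 = y₀.1.1 := by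
          rw [hz]
          funext i
          simp only [win, y₀]
          rw [if_pos (by have := i.2; omega)]
          rfl
        exact (hO' z y₀ h1).2 (Equiv.Perm.SameCycle.refl _ _)
      | succ j ih =>
        intro hj z hz
        obtain ⟨z', hz'⟩ := hfib (win j)
        refine hN z' z (ih (by omega) z' hz') ?_
        rw [hz, hz']
        funext i
        simp only [Fin.init, Fin.tail, win, Fin.val_castSucc, Fin.val_succ]
        have e1 : i.val + (j + 1) = i.val + 1 + j := by ring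
        rw [e1]
    refine hwin (P + 1) le_rfl y ?_
    funext i
    simp only [win]
    rw [if_neg (by omega)]
    refine congrArg y.1.1 (Fin.ext ?_)
    rw [Nat.add_sub_cancel]
    simp [Fin.ofNat, Nat.mod_eq_of_lt i.2]
  refine ⟨σ, hσ, fun y y' => ?_⟩
  exact (show σ.SameCycle y₀ y from hall y).symm.trans (hall y')

end Pool.Agent.HA48.GDB
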